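import Pool.Agent.N225.MD.H

set_option autoImplicit false

open Metric Set MeasureTheory Filter
open scoped ENNReal NNReal Topology Pointwise

namespace Pool.Agent.N225.ST

open Pool.Agent.N225.MD

/-- the segment `I` with end points `(-a, 0)` and `(a, 0)` -/
noncomputable def seg (a : ℝ) : Set (E 2) := segment ℝ (pt (-a) 0) (pt a 0)

/-- the `R`-stadium around `I`: the points at distance exactly `R` from `I` -/
noncomputable def stadium (a R : ℝ) : Set (E 2) := {z | infDist z (seg a) = R}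

/-- a set consisting of a connected part of the inner parallel curve `M_r` (the `(R - r)`-stadium) and two segments -/
def IsShoe (a h : ℝ) (S : Set (E 2)) : Prop :=
  ∃ (γ : Set (E 2)) (p q p' q' : E 2), IsPreconnected γ ∧ γ ⊆ stadium a h ∧
    S = γ ∪ (segment ℝ p q ∪ segment ℝ p' q')

lemma exists_on_segment {x1 x2 y1 y2 t : ℝ} (h1 : x1 ≤ t) (h2 : t ≤ x2) :
    ∃ y, min y1 y2 ≤ y ∧ y ≤ max y1 y2 ∧ pt t y ∈ segment ℝ (pt x1 y1) (pt x2 y2) := by
  rcases eq_or_lt_of_le (h1.trans h2) with h3 | h3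
  · have : t = x1 := by linarith
    subst this
    exact ⟨y1, min_le_left _ _, le_max_left _ _, left_mem_segment ℝ _ _⟩
  · set l : ℝ := (t - x1) / (x2 - x1) with hl
    have hl0 : 0 ≤ l := div_nonneg (by linarith) (by linarith)
    have hl1 : l ≤ 1 := (div_le_one (by linarith)).2 (by linarith)
    have hlt : l * (x2 - x1) = t - x1 := by
      rw [hl]
      exact div_mul_cancel₀ _ (by linarith)
    refine ⟨(1 - l) * y1 + l * y2, ?_, ?_, ⟨1 - l, l, by linarith, hl0, by ring, ?_⟩⟩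
    · have h4 := mul_le_mul_of_nonneg_left (min_le_left y1 y2) (sub_nonneg.2 hl1)
      have h5 := mul_le_mul_of_nonneg_left (min_le_right y1 y2) hl0
      linarith
    · have h4 := mul_le_mul_of_nonneg_left (le_max_left y1 y2) (sub_nonneg.2 hl1)
      have h5 := mul_le_mul_of_nonneg_left (le_max_right y1 y2) hl0
      linarith
    · ext i
      fin_cases i
      · show (1 - l) * x1 + l * x2 = t
        linarith
      · show (1 - l) * y1 + l * y2 = _
        rfl

lemma mem_seg {a : ℝ} (ha : 0 ≤ a) {w : E 2} (hw : w ∈ seg a) :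
    w 1 = 0 ∧ -a ≤ w 0 ∧ w 0 ≤ a := by
  obtain ⟨s, t, hs, ht, hst, rfl⟩ := hw
  refine ⟨?_, ?_, ?_⟩
  · show s * 0 + t * 0 = 0
    ring
  · show -a ≤ s * (-a) + t * a
    nlinarith
  · show s * (-a) + t * a ≤ a
    nlinarith

lemma pt_mem_seg {a x : ℝ} (h1 : -a ≤ x) (h2 : x ≤ a) : pt x 0 ∈ seg a := by
  obtain ⟨y, hy1, hy2, hy⟩ := exists_on_segment (y1 := 0) (y2 := 0) h1 h2
  rw [min_self] at hy1
  rw [max_self] at hy2
  rwa [le_antisymm hy2 hy1] at hy

lemma seg_ne (a : ℝ) : (seg a).Nonempty := ⟨_, left_mem_segment ℝ _ _⟩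

lemma abs_one_le (z w : E 2) : |z 1 - w 1| ≤ dist z w := by
  refine abs_le_of_sq_le_sq ?_ dist_nonneg
  rw [dist_sq]
  nlinarith [sq_nonneg (z 0 - w 0)]

lemma abs_zero_le (z w : E 2) : |z 0 - w 0| ≤ dist z w := by
  refine abs_le_of_sq_le_sq ?_ dist_nonneg
  rw [dist_sq]
  nlinarith [sq_nonneg (z 1 - w 1)]

lemma infDist_seg {a : ℝ} (z : E 2) (h1 : -a ≤ z 0) (h2 : z 0 ≤ a) :
    infDist z (seg a) = |z 1| := by
  have ha : 0 ≤ a := by linarith
  apply le_antisymm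
  · refine (infDist_le_dist_of_mem (pt_mem_seg h1 h2)).trans ?_
    refine le_of_sq_le_sq ?_ (abs_nonneg _)
    rw [dist_sq, sq_abs]
    simp
  · rw [le_infDist (seg_ne a)]
    intro w hw
    have := abs_one_le z w
    rwa [(mem_seg ha hw).1, sub_zero] at this

/-- the `x`-coordinates of the points of `S` with `h ≤ ε y` -/
def X (ε h : ℝ) (S : Set (E 2)) : Set ℝ := (fun z : E 2 => z 0) '' (S ∩ {z | h ≤ ε * z 1})

lemma X_seg (ε h : ℝ) (p q : E 2) {x0 x1 w : ℝ} (h0 : x0 ∈ X ε h (segment ℝ p q))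
    (h1 : x1 ∈ X ε h (segment ℝ p q)) (h2 : x0 < w) (h3 : w < x1) :
    w ∈ X ε h (segment ℝ p q) := by
  obtain ⟨s, ⟨hs, hs2⟩, rfl⟩ := h0
  obtain ⟨s', ⟨hs', hs2'⟩, rfl⟩ := h1
  simp only at h2 h3
  have hs2 : h ≤ ε * s 1 := hs2
  have hs2' : h ≤ ε * s' 1 := hs2'
  set l : ℝ := (w - s 0) / (s' 0 - s 0) with hl
  have hl0 : 0 ≤ l := div_nonneg (by linarith) (by linarith)
  have hl1 : l ≤ 1 := (div_le_one (by linarith)).2 (by linarith)
  have hlt : l * (s' 0 - s 0) = w - s 0 := by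
    rw [hl]
    exact div_mul_cancel₀ _ (by linarith)
  refine ⟨(1 - l) • s + l • s', ⟨convex_segment p q hs hs' (by linarith) hl0 (by ring), ?_⟩, ?_⟩
  · show h ≤ ε * ((1 - l) * s 1 + l * s' 1)
    have h4 := mul_le_mul_of_nonneg_left hs2 (sub_nonneg.2 hl1)
    have h5 := mul_le_mul_of_nonneg_left hs2' hl0
    linarith
  · show (1 - l) * s 0 + l * s' 0 = w
    linarith

lemma X_arc {ε h a : ℝ} (hh : 0 < h) (hε : ε * ε = 1) {γ : Set (E 2)} (hγ : IsPreconnected γ)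
    (hγs : γ ⊆ stadium a h) {y0 w y w' y1 : ℝ} (h0 : y0 ∈ X ε h γ) (hy : y ∈ X ε h γ)
    (h1 : y1 ∈ X ε h γ) (hw : w ∉ X ε h γ) (hw' : w' ∉ X ε h γ) (ha : -a ≤ w) (ha' : w' ≤ a)
    (e1 : y0 < w) (e2 : w < y) (e3 : y < w') (e4 : w' < y1) : False := by
  obtain ⟨g0, ⟨hg0, hg0'⟩, rfl⟩ := h0
  obtain ⟨g, ⟨hg, hg'⟩, rfl⟩ := hy
  simp only at e1 e2 e3
  have hg' : h ≤ ε * g 1 := hg'
  have c0 : Continuous fun z : E 2 => z 0 := by fun_prop
  have c1 : Continuous fun z : E 2 => ε * z 1 := by fun_prop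
  have hU : IsOpen {z : E 2 | w < z 0 ∧ z 0 < w' ∧ 0 < ε * z 1} :=
    (isOpen_lt continuous_const c0).inter ((isOpen_lt c0 continuous_const).inter
      (isOpen_lt continuous_const c1))
  have hV : IsOpen {z : E 2 | z 0 < w ∨ w' < z 0 ∨ ε * z 1 < 0} :=
    (isOpen_lt c0 continuous_const).union ((isOpen_lt continuous_const c0).union
      (isOpen_lt c1 continuous_const))
  obtain ⟨z, -, hz1, hz2⟩ := hγ _ _ hU hV (by
    intro z hz
    by_contra hcon
    simp only [mem_union, mem_ofPred_eq, not_or, not_and, not_lt] at hcon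
    obtain ⟨hc1, hc2, hc3, hc4⟩ := hcon
    have hst : infDist z (seg a) = h := hγs hz
    rw [infDist_seg z (by linarith) (by linarith)] at hst
    have h5 : ε * z 1 = h := by
      have h6 : |ε * z 1| = h := by
        rw [abs_mul, hst]
        have : |ε| = 1 := by
          have : |ε| * |ε| = 1 := by rw [← abs_mul, hε, abs_one]
          nlinarith [abs_nonneg ε]
        rw [this, one_mul]
      rwa [abs_of_nonneg hc4] at h6
    have hmem : z 0 ∈ X ε h γ := ⟨z, ⟨hz, h5.ge⟩, rfl⟩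
    have h7 : w < z 0 := lt_of_le_of_ne hc2 (by rintro rfl; exact hw hmem)
    have h8 : z 0 < w' := lt_of_le_of_ne hc3 (by rintro rfl; exact hw' hmem)
    have := hc1 h7 h8
    linarith)
    ⟨g, hg, e2, e3, by linarith⟩ ⟨g0, hg0, Or.inl e1⟩
  obtain ⟨k1, k2, k3⟩ := hz1
  rcases hz2 with k | k | k <;> linarith

end Pool.Agent.N225.ST
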