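import Pool.Agent.N225.ST.A

set_option autoImplicit false

open Metric Set MeasureTheory Filter
open scoped ENNReal NNReal Topology Pointwise

namespace Pool.Agent.N225.ST

open Pool.Agent.N225.MD

open Classical in
/-- colour -/
noncomputable def col (Y1 Y2 Y : Set ℝ) (w : ℝ) : Bool × Bool × Bool × Bool :=
  (decide (∃ y ∈ Y1, y < w), decide (∃ y ∈ Y2, y < w), decide (∃ y ∈ Y, y < w),
    decide (∃ y ∈ Y, w < y))

/-- half of the lower bound -/
lemma half {ε h a r : ℝ} (hh : 0 < h) (hε : ε * ε = 1) (hr : 0 ≤ r)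
    {γ : Set (E 2)} (hγ : IsPreconnected γ) (hγs : γ ⊆ stadium a h) (p q p' q' : E 2)
    (hcov : ∀ x, -a ≤ x → x ≤ a → ∃ x' ∈ X ε h (γ ∪ (segment ℝ p q ∪ segment ℝ p' q')),
      |x - x'| ≤ r) :
    ENNReal.ofReal (2 * a - 32 * r) ≤
      μH[1] ((γ ∪ (segment ℝ p q ∪ segment ℝ p' q')) ∩ {z | h ≤ ε * z 1}) := by
  classical
  set S : Set (E 2) := γ ∪ (segment ℝ p q ∪ segment ℝ p' q') with hS
  have hX : X ε h S = X ε h γ ∪ (X ε h (segment ℝ p q) ∪ X ε h (segment ℝ p' q')) := by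
    simp only [X, hS, union_inter_distrib_right, image_union]
  set W : Set ℝ := Icc (-a) a \ X ε h S with hW
  set f : ℝ → Bool × Bool × Bool × Bool :=
    col (X ε h (segment ℝ p q)) (X ε h (segment ℝ p' q')) (X ε h γ) with hf
  have key : ∀ w ∈ W, ∀ w' ∈ W, f w = f w' → w < w' → w' - w ≤ 2 * r := by
    intro w hw w' hw' hff hlt
    by_contra hcon
    push Not at hcon
    obtain ⟨x', hx', hx'2⟩ := hcov ((w + w') / 2) (by linarith [hw.1.1, hw'.1.1])
      (by linarith [hw.1.2, hw'.1.2])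
    rw [abs_le] at hx'2
    have hwx : w < x' := by linarith
    have hxw : x' < w' := by linarith
    have hwn := hw.2
    have hwn' := hw'.2
    rw [hX] at hx' hwn hwn'
    simp only [mem_union, not_or] at hx' hwn hwn'
    simp only [hf, col, Prod.mk.injEq, decide_eq_decide] at hff
    obtain ⟨f1, f2, f3, f4⟩ := hff
    rcases hx' with hx' | hx' | hx'
    · obtain ⟨y0, hy0, hy0'⟩ := f3.2 ⟨x', hx', hxw⟩
      obtain ⟨y1, hy1, hy1'⟩ := f4.1 ⟨x', hx', hwx⟩
      exact X_arc hh hε hγ hγs hy0 hx' hy1 hwn.1 hwn'.1 hw.1.1 hw'.1.2 hy0' hwx hxw hy1'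
    · obtain ⟨y0, hy0, hy0'⟩ := f1.2 ⟨x', hx', hxw⟩
      exact hwn.2.1 (X_seg ε h p q hy0 hx' hy0' hwx)
    · obtain ⟨y0, hy0, hy0'⟩ := f2.2 ⟨x', hx', hxw⟩
      exact hwn.2.2 (X_seg ε h p' q' hy0 hx' hy0' hwx)
  have hdiam : ∀ c, volume {w ∈ W | f w = c} ≤ ENNReal.ofReal (2 * r) := by
    intro c
    refine (Real.volume_le_diam _).trans (ediam_le fun x hx y hy => ?_)
    rw [edist_dist]
    refine ENNReal.ofReal_le_ofReal ?_
    rw [Real.dist_eq, abs_le]
    rcases lt_trichotomy x y with hxy | hxy | hxy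
    · have := key x hx.1 y hy.1 (hx.2.trans hy.2.symm) hxy
      constructor <;> linarith
    · subst hxy
      constructor <;> linarith
    · have := key y hy.1 x hx.1 (hy.2.trans hx.2.symm) hxy
      constructor <;> linarith
  have hvolW : volume W ≤ ENNReal.ofReal (32 * r) := by
    have h1 : W ⊆ ⋃ c, {w ∈ W | f w = c} := fun w hw => mem_iUnion.2 ⟨f w, hw, rfl⟩
    calc volume W ≤ ∑ c, volume {w ∈ W | f w = c} :=
          (measure_mono h1).trans (measure_iUnion_fintype_le _ _)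
      _ ≤ ∑ _c : Bool × Bool × Bool × Bool, ENNReal.ofReal (2 * r) :=
          Finset.sum_le_sum fun c _ => hdiam c
      _ = ENNReal.ofReal (32 * r) := by
          rw [Finset.sum_const, Finset.card_univ, nsmul_eq_mul, ← ENNReal.ofReal_natCast,
            ← ENNReal.ofReal_mul (by positivity)]
          congr 1
          simp only [Fintype.card_prod, Fintype.card_bool]
          push_cast
          ring
  have hvolX : volume (X ε h S) ≤ μH[1] (S ∩ {z | h ≤ ε * z 1}) := by
    have hlip : LipschitzWith 1 fun z : E 2 => z 0 := by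
      refine LipschitzWith.of_dist_le_mul fun z w => ?_
      rw [NNReal.coe_one, one_mul, Real.dist_eq]
      exact abs_zero_le z w
    have := hlip.hausdorffMeasure_image_le zero_le_one (S ∩ {z | h ≤ ε * z 1})
    rw [hausdorffMeasure_real] at this
    simpa [X] using this
  have h2 : Icc (-a) a ⊆ X ε h S ∪ W := fun x hx => by
    by_cases hxX : x ∈ X ε h S
    · exact Or.inl hxX
    · exact Or.inr ⟨hx, hxX⟩
  have h3 : ENNReal.ofReal (2 * a) ≤
      μH[1] (S ∩ {z | h ≤ ε * z 1}) + ENNReal.ofReal (32 * r) := by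
    have h4 := (measure_mono h2).trans (measure_union_le (μ := volume) _ _)
    rw [Real.volume_Icc, show a - -a = 2 * a by ring] at h4
    exact h4.trans (add_le_add hvolX hvolW)
  rw [ENNReal.ofReal_sub _ (by positivity)]
  exact tsub_le_iff_right.2 h3

/-- lower bound for horseshoes -/
lemma shoe_lower {a r R : ℝ} (hr : 0 ≤ r) (hrR : r < R) {S : Set (E 2)}
    (hS : IsShoe a (R - r) S) (hc : Covers (stadium a R) r S) :
    ENNReal.ofReal (2 * (2 * a - 32 * r)) ≤ μH[1] S := by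
  obtain ⟨γ, p, q, p', q', hγ, hγs, hSe⟩ := hS
  have hh : 0 < R - r := sub_pos.2 hrR
  have hcov : ∀ ε : ℝ, ε * ε = 1 → ∀ x, -a ≤ x → x ≤ a → ∃ x' ∈ X ε (R - r) S, |x - x'| ≤ r := by
    intro ε hε x h1 h2
    have hε1 : |ε| = 1 := by
      have : |ε| * |ε| = 1 := by rw [← abs_mul, hε, abs_one]
      nlinarith [abs_nonneg ε]
    obtain ⟨s, hs, hsx⟩ := hc.ex (pt x (ε * R)) (by
      show infDist _ _ = R
      rw [infDist_seg _ (by simpa using h1) (by simpa using h2), pt_one, abs_mul, hε1, one_mul,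
        abs_of_pos (by linarith)])
    refine ⟨s 0, ⟨s, ⟨hs, ?_⟩, rfl⟩, ?_⟩
    · have h3 := (abs_one_le (pt x (ε * R)) s).trans hsx
      rw [pt_one] at h3
      have h4 : |ε * (ε * R - s 1)| ≤ r := by rwa [abs_mul, hε1, one_mul]
      have h5 : ε * (ε * R - s 1) = R - ε * s 1 := by
        rw [mul_sub, ← mul_assoc, hε, one_mul]
      rw [h5, abs_le] at h4
      show R - r ≤ ε * s 1
      linarith [h4.2]
    · have h3 := (abs_zero_le (pt x (ε * R)) s).trans hsx
      rwa [pt_zero] at h3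
  have hA := half (ε := 1) (a := a) hh (by norm_num) hr hγ hγs p q p' q' (by
    rw [← hSe]
    exact hcov 1 (by norm_num))
  have hB := half (ε := -1) (a := a) hh (by norm_num) hr hγ hγs p q p' q' (by
    rw [← hSe]
    exact hcov (-1) (by norm_num))
  rw [← hSe] at hA hB
  have c0 : ∀ ε : ℝ, Continuous fun z : E 2 => ε * z 1 := fun ε => by fun_prop
  have hdisj : Disjoint (S ∩ {z : E 2 | R - r ≤ 1 * z 1}) (S ∩ {z : E 2 | R - r ≤ -1 * z 1}) := by
    rw [Set.disjoint_left]
    rintro z ⟨-, hz1⟩ ⟨-, hz2⟩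
    have hz1 : R - r ≤ 1 * z 1 := hz1
    have hz2 : R - r ≤ -1 * z 1 := hz2
    linarith
  have hmeas : MeasurableSet (S ∩ {z : E 2 | R - r ≤ -1 * z 1}) :=
    hc.cpt.isClosed.measurableSet.inter (isClosed_le continuous_const (c0 (-1))).measurableSet
  have h6 : μH[1] (S ∩ {z : E 2 | R - r ≤ 1 * z 1}) + μH[1] (S ∩ {z : E 2 | R - r ≤ -1 * z 1}) ≤
      μH[1] S := by
    rw [← measure_union hdisj hmeas]
    exact measure_mono (union_subset inter_subset_left inter_subset_left)
  refine le_trans ?_ h6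
  rcases le_total (2 * a - 32 * r) 0 with h7 | h7
  · rw [ENNReal.ofReal_of_nonpos (by linarith)]
    exact bot_le
  · rw [two_mul, ENNReal.ofReal_add h7 h7]
    exact add_le_add hA hB

end Pool.Agent.N225.ST
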