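import Pool.Agent.N225.ST.B

set_option autoImplicit false

open Metric Set MeasureTheory Filter
open scoped ENNReal NNReal Topology Pointwise

namespace Pool.Agent.N225.ST

open Pool.Agent.N225.MD

/-- compact connected set of length at most `L` -/
structure Good (S : Set (E 2)) (L : ℝ) : Prop where
  cpt : IsCompact S
  conn : IsConnected S
  nonneg : 0 ≤ L
  len : μH[1] S ≤ ENNReal.ofReal L

lemma Good.union {S T : Set (E 2)} {L L' : ℝ} (h : Good S L) (h' : Good T L')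
    (hne : (S ∩ T).Nonempty) : Good (S ∪ T) (L + L') :=
  ⟨h.cpt.union h'.cpt, IsConnected.union hne h.conn h'.conn, add_nonneg h.nonneg h'.nonneg, by
    rw [ENNReal.ofReal_add h.nonneg h'.nonneg]
    exact (measure_union_le _ _).trans (add_le_add h.len h'.len)⟩

lemma near {t y t' y' r : ℝ} (hr : 0 ≤ r) (h : (t - t') ^ 2 + (y - y') ^ 2 ≤ r ^ 2) :
    dist (pt t y) (pt t' y') ≤ r := by
  refine le_of_sq_le_sq ?_ hr
  rw [dist_sq]
  exact h

lemma good_seg {A B : E 2} {t : ℝ} (ht : dist A B ≤ t) : Good (segment ℝ A B) t := by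
  refine ⟨isCompact_segment _ _, seg_conn _ _, dist_nonneg.trans ht, ?_⟩
  rw [hausdorffMeasure_segment, edist_dist]
  exact ENNReal.ofReal_le_ofReal ht

lemma Good.add {S : Set (E 2)} {L : ℝ} (h : Good S L) {A B : E 2} {t : ℝ} (hA : A ∈ S)
    (ht : dist A B ≤ t) : ∃ S', Good S' (L + t) ∧ S ⊆ S' ∧ segment ℝ A B ⊆ S' ∧ B ∈ S' :=
  ⟨S ∪ segment ℝ A B, h.union (good_seg ht) ⟨A, hA, left_mem_segment ℝ _ _⟩,
    subset_union_left, subset_union_right, Or.inr (right_mem_segment ℝ _ _)⟩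

/-- the parameters -/
structure Par (r h p c yF yJ t1 t2 t3 : ℝ) : Prop where
  r0 : 0 ≤ r
  h0 : 0 ≤ h
  p0 : 0 ≤ p
  pc : p ≤ c
  hF : h ≤ yF
  FR : yF ≤ h + r
  J0 : 0 ≤ yJ
  cir : p ^ 2 + (h + r - yF) ^ 2 ≤ r ^ 2
  n1 : 0 ≤ t1
  e1 : (c + r - p) ^ 2 + (yF - h) ^ 2 ≤ t1 ^ 2
  n2 : 0 ≤ t2
  e2 : p ^ 2 + (yF - yJ) ^ 2 ≤ t2 ^ 2
  n3 : 0 ≤ t3
  e3 : (c - p) ^ 2 + (h + r - yF) ^ 2 ≤ t3 ^ 2

/-- one cell of the comb -/
lemma cell {r h p c yF yJ t1 t2 t3 : ℝ} (P : Par r h p c yF yJ t1 t2 t3) {S : Set (E 2)} {L x : ℝ}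
    (hS : Good S L) (hx : pt x h ∈ S) :
    ∃ S', Good S' (L + (2 * t1 + 4 * t2 + 2 * yJ + 2 * t3)) ∧ S ⊆ S' ∧
      pt (x + (2 * c + 2 * r)) h ∈ S' ∧
      ∀ t, x ≤ t → t ≤ x + (2 * c + 2 * r) → (∃ s ∈ S', dist (pt t (h + r)) s ≤ r) ∧
        ∃ s ∈ S', dist (pt t (-(h + r))) s ≤ r := by
  have r0 := P.r0
  have h0 := P.h0
  have p0 := P.p0
  have pc := P.pc
  have hF := P.hF
  have FR := P.FR
  have J0 := P.J0
  have cir := P.cir
  set m : ℝ := x + c + r with hm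
  obtain ⟨S1, g1, i1, j1, k1⟩ := hS.add (B := pt (m - p) yF) hx
    (near P.n1 (by rw [hm]; nlinarith [P.e1]))
  obtain ⟨S2, g2, i2, j2, k2⟩ := g1.add (B := pt m yJ) k1 (near P.n2 (by nlinarith [P.e2]))
  obtain ⟨S3, g3, i3, j3, k3⟩ := g2.add (B := pt (m + p) yF) k2 (near P.n2 (by nlinarith [P.e2]))
  obtain ⟨S4, g4, i4, j4, k4⟩ := g3.add (B := pt (x + (2 * c + 2 * r)) h) k3
    (near P.n1 (by rw [hm]; nlinarith [P.e1]))
  obtain ⟨S5, g5, i5, j5, k5⟩ := g4.add (B := pt m (-yJ)) (i4 (i3 k2))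
    (near (r := 2 * yJ) (by positivity) (by nlinarith))
  obtain ⟨S6, g6, i6, j6, k6⟩ := g5.add (B := pt (m - p) (-yF)) k5
    (near P.n2 (by nlinarith [P.e2]))
  obtain ⟨S7, g7, i7, j7, k7⟩ := g6.add (B := pt (m - c) (-(h + r))) k6
    (near P.n3 (by nlinarith [P.e3]))
  obtain ⟨S8, g8, i8, j8, k8⟩ := g7.add (B := pt (m + p) (-yF)) (i7 (i6 k5))
    (near P.n2 (by nlinarith [P.e2]))
  obtain ⟨S9, g9, i9, j9, k9⟩ := g8.add (B := pt (m + c) (-(h + r))) k8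
    (near P.n3 (by nlinarith [P.e3]))
  have m4 : ∀ {z}, z ∈ S4 → z ∈ S9 := fun hz => i9 (i8 (i7 (i6 (i5 hz))))
  have m1 : ∀ {z}, z ∈ S1 → z ∈ S9 := fun hz => m4 (i4 (i3 (i2 hz)))
  have m6 : ∀ {z}, z ∈ S6 → z ∈ S9 := fun hz => i9 (i8 (i7 hz))
  have m7 : ∀ {z}, z ∈ S7 → z ∈ S9 := fun hz => i9 (i8 hz)
  refine ⟨S9, ?_, fun z hz => m1 (i1 hz), m4 k4, fun t ht1 ht2 => ⟨?_, ?_⟩⟩
  · have e : L + (2 * t1 + 4 * t2 + 2 * yJ + 2 * t3) =
        L + t1 + t2 + t2 + t1 + 2 * yJ + t2 + t3 + t2 + t3 := by ring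
    rw [e]
    exact g9
  · rcases le_total t (m - p) with a1 | a1
    · obtain ⟨y, hy1, hy2, hy⟩ := exists_on_segment (y1 := h) (y2 := yF) ht1 a1
      rw [min_eq_left hF] at hy1
      rw [max_eq_right hF] at hy2
      exact ⟨_, m1 (j1 hy), near r0 (by nlinarith)⟩
    rcases le_total t m with a2 | a2
    · exact ⟨_, m1 k1, near r0 (by nlinarith)⟩
    rcases le_total t (m + p) with a3 | a3
    · exact ⟨_, m4 (i4 k3), near r0 (by nlinarith)⟩
    · obtain ⟨y, hy1, hy2, hy⟩ := exists_on_segment (y1 := yF) (y2 := h) a3 ht2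
      rw [min_eq_right hF] at hy1
      rw [max_eq_left hF] at hy2
      exact ⟨_, m4 (j4 hy), near r0 (by nlinarith)⟩
  · rcases le_total t (m - c) with a0 | a0
    · exact ⟨_, m7 k7, near r0 (by nlinarith)⟩
    rcases le_total t (m - p) with a1 | a1
    · obtain ⟨y, hy1, hy2, hy⟩ := exists_on_segment (y1 := -(h + r)) (y2 := -yF) a0 a1
      rw [min_eq_left (by linarith)] at hy1
      rw [max_eq_right (by linarith)] at hy2
      rw [segment_symm] at hy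
      exact ⟨_, m7 (j7 hy), near r0 (by nlinarith)⟩
    rcases le_total t m with a2 | a2
    · exact ⟨_, m6 k6, near r0 (by nlinarith)⟩
    rcases le_total t (m + p) with a3 | a3
    · exact ⟨_, i9 k8, near r0 (by nlinarith)⟩
    rcases le_total t (m + c) with a4 | a4
    · obtain ⟨y, hy1, hy2, hy⟩ := exists_on_segment (y1 := -yF) (y2 := -(h + r)) a3 a4
      rw [min_eq_right (by linarith)] at hy1
      rw [max_eq_left (by linarith)] at hy2
      exact ⟨_, j9 hy, near r0 (by nlinarith)⟩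
    · exact ⟨_, k9, near r0 (by nlinarith)⟩

/-- the comb -/
lemma comb {r h p c yF yJ t1 t2 t3 : ℝ} (P : Par r h p c yF yJ t1 t2 t3) (x : ℝ) (N : ℕ) :
    ∃ S, Good S (N * (2 * t1 + 4 * t2 + 2 * yJ + 2 * t3)) ∧ pt x h ∈ S ∧
      pt (x + N * (2 * c + 2 * r)) h ∈ S ∧
      ∀ t, x ≤ t → t < x + N * (2 * c + 2 * r) → (∃ s ∈ S, dist (pt t (h + r)) s ≤ r) ∧
        ∃ s ∈ S, dist (pt t (-(h + r))) s ≤ r := by
  induction N with
  | zero =>
    refine ⟨segment ℝ (pt x h) (pt x h), ?_, left_mem_segment ℝ _ _, ?_, fun t h1 h2 => ?_⟩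
    · have := good_seg (A := pt x h) (B := pt x h) (t := 0) (by rw [dist_self])
      simpa using this
    · simp
    · simp at h2
      linarith
  | succ N ih =>
    obtain ⟨S, g, hx, hx', hc⟩ := ih
    obtain ⟨S', g', hi, hx'', hc'⟩ := cell P g hx'
    refine ⟨S', ?_, hi hx, ?_, fun t h1 h2 => ?_⟩
    · convert g' using 1
      push_cast
      ring
    · convert hx'' using 2
      push_cast
      ring
    · rcases lt_or_ge t (x + N * (2 * c + 2 * r)) with h3 | h3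
      · obtain ⟨⟨s, hs, hs'⟩, ⟨q, hq, hq'⟩⟩ := hc t h1 h3
        exact ⟨⟨s, hi hs, hs'⟩, ⟨q, hi hq, hq'⟩⟩
      · refine hc' t h3 ?_
        push_cast at h2
        linarith

end Pool.Agent.N225.ST
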