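import Pool.Agent.N225.ST.C

set_option autoImplicit false

open Metric Set MeasureTheory Filter
open scoped ENNReal NNReal Topology Pointwise

namespace Pool.Agent.N225.ST

open Pool.Agent.N225.MD

lemma pt_add (a h : ℝ) : pt a h = pt a 0 + pt 0 h := by
  ext i
  fin_cases i
  · show a = a + 0
    ring
  · show h = 0 + h
    ring

/-- sets that cover the discs of radius `R` -/
lemma caps {R r : ℝ} (hR : 0 ≤ R) (hr : 0 < r) : ∃ (L0 : ℝ) (s0 : E 2), 0 ≤ L0 ∧ ∀ v : E 2,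
    ∃ T, Good T L0 ∧ v + s0 ∈ T ∧ ∀ z, dist z v ≤ R → ∃ s ∈ T, dist z s ≤ r := by
  obtain ⟨S0, hS0, hfin⟩ := exists_finite (d := 2) hR hr
  obtain ⟨s0, hs0⟩ := hS0.conn.nonempty
  refine ⟨(μH[1] S0).toReal, s0, ENNReal.toReal_nonneg, fun v => ⟨(fun z => v + z) '' S0, ⟨?_, ?_,
    ENNReal.toReal_nonneg, ?_⟩, ⟨s0, hs0, rfl⟩, fun z hz => ?_⟩⟩
  · exact hS0.cpt.image (continuous_const.add continuous_id)
  · exact hS0.conn.image _ (continuous_const.add continuous_id).continuousOn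
  · rw [ENNReal.ofReal_toReal hfin.ne]
    have hlip : LipschitzWith 1 fun z : E 2 => v + z := by
      refine LipschitzWith.of_dist_le_mul fun z w => ?_
      rw [NNReal.coe_one, one_mul, dist_add_left]
    have := hlip.hausdorffMeasure_image_le zero_le_one S0
    rwa [ENNReal.coe_one, ENNReal.one_rpow, one_mul] at this
  · obtain ⟨s, hs, hs'⟩ := hS0.ex (z - v) (by
      rw [mem_closedBall, dist_zero_right, ← dist_eq_norm]
      exact hz)
    refine ⟨v + s, ⟨s, hs, rfl⟩, ?_⟩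
    have : z = v + (z - v) := by abel
    rw [this, dist_add_left]
    exact hs'

lemma end_cap {a R : ℝ} (ha : 0 ≤ a) {z : E 2} (hz : z ∈ stadium a R) (h : a < z 0) :
    dist z (pt a 0) ≤ R := by
  obtain ⟨w, hw, he⟩ := (isCompact_segment (pt (-a) 0) (pt a 0)).exists_infDist_eq_dist
    (seg_ne a) z
  have hz' : infDist z (seg a) = R := hz
  have he : infDist z (seg a) = dist z w := he
  rw [← hz', he]
  obtain ⟨h1, h2, h3⟩ := mem_seg ha hw
  refine le_of_sq_le_sq ?_ dist_nonneg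
  rw [dist_sq, dist_sq, h1, pt_zero, pt_one]
  nlinarith

lemma end_cap' {a R : ℝ} (ha : 0 ≤ a) {z : E 2} (hz : z ∈ stadium a R) (h : z 0 < -a) :
    dist z (pt (-a) 0) ≤ R := by
  obtain ⟨w, hw, he⟩ := (isCompact_segment (pt (-a) 0) (pt a 0)).exists_infDist_eq_dist
    (seg_ne a) z
  have hz' : infDist z (seg a) = R := hz
  have he : infDist z (seg a) = dist z w := he
  rw [← hz', he]
  obtain ⟨h1, h2, h3⟩ := mem_seg ha hw
  refine le_of_sq_le_sq ?_ dist_nonneg
  rw [dist_sq, dist_sq, h1, pt_zero, pt_one]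
  nlinarith

lemma competitor {r h p c yF yJ t1 t2 t3 : ℝ} (P : Par r h p c yF yJ t1 t2 t3) (hr : 0 < r) :
    ∃ C1 : ℝ, ∀ a : ℝ, 0 < a → ∀ N : ℕ, 2 * a < N * (2 * c + 2 * r) →
      N * (2 * c + 2 * r) ≤ 2 * a + (2 * c + 2 * r) →
      ∃ K, Covers (stadium a (h + r)) r K ∧
        μH[1] K ≤ ENNReal.ofReal (N * (2 * t1 + 4 * t2 + 2 * yJ + 2 * t3) + C1) := by
  obtain ⟨L0, s0, hL0, hcap⟩ := caps (R := h + r) (r := r) (by linarith [P.h0]) hr
  set D : ℝ := dist (pt 0 h) s0 with hD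
  refine ⟨D + L0 + (D + (2 * c + 2 * r)) + L0, fun a ha N hN1 hN2 => ?_⟩
  obtain ⟨S, g, hx, hx', hc⟩ := comb P (-a) N
  obtain ⟨Tl, gl, ml, cl⟩ := hcap (pt (-a) 0)
  obtain ⟨Tr, gr, mr, cr⟩ := hcap (pt a 0)
  obtain ⟨S1, g1, i1, -, k1⟩ := g.add (B := pt (-a) 0 + s0) (t := D) hx (by
    rw [pt_add (-a) h, dist_add_left])
  have g2 := g1.union gl ⟨_, k1, ml⟩
  obtain ⟨S3, g3, i3, -, k3⟩ := g2.add (B := pt a 0 + s0) (t := D + (2 * c + 2 * r))
    (Or.inl (i1 hx')) (by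
      have h1 : dist (pt (-a + N * (2 * c + 2 * r)) h) (pt a h) ≤ 2 * c + 2 * r :=
        near (by linarith [P.r0, P.p0, P.pc]) (by nlinarith [P.r0, P.p0, P.pc])
      have h2 : dist (pt a h) (pt a 0 + s0) = D := by rw [pt_add a h, dist_add_left]
      linarith [dist_triangle (pt (-a + N * (2 * c + 2 * r)) h) (pt a h) (pt a 0 + s0)])
  have g4 := g3.union gr ⟨_, k3, mr⟩
  refine ⟨S3 ∪ Tr, ⟨g4.cpt, g4.conn, fun z hz => ?_⟩, ?_⟩
  · rcases lt_or_ge (z 0) (-a) with h1 | h1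
    · obtain ⟨s, hs, hs'⟩ := cl z (end_cap' ha.le hz h1)
      exact (infDist_le_dist_of_mem (show s ∈ S3 ∪ Tr from Or.inl (i3 (Or.inr hs)))).trans hs'
    rcases lt_or_ge a (z 0) with h2 | h2
    · obtain ⟨s, hs, hs'⟩ := cr z (end_cap ha.le hz h2)
      exact (infDist_le_dist_of_mem (show s ∈ S3 ∪ Tr from Or.inr hs)).trans hs'
    · have h3 : |z 1| = h + r := by
        rw [← infDist_seg z h1 h2]
        exact hz
      obtain ⟨⟨s, hs, hs'⟩, ⟨q, hq, hq'⟩⟩ := hc (z 0) h1 (by linarith)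
      rcases le_total 0 (z 1) with h4 | h4
      · rw [abs_of_nonneg h4] at h3
        rw [← h3, pt_eta] at hs'
        exact (infDist_le_dist_of_mem (show s ∈ S3 ∪ Tr from Or.inl (i3 (Or.inl (i1 hs))))).trans hs'
      · rw [abs_of_nonpos h4] at h3
        rw [← h3, neg_neg, pt_eta] at hq'
        exact (infDist_le_dist_of_mem (show q ∈ S3 ∪ Tr from Or.inl (i3 (Or.inl (i1 hq))))).trans hq'
  · refine g4.len.trans (ENNReal.ofReal_le_ofReal (le_of_eq ?_))
    ring

/-- long stadia -/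
lemma long {r h p c yF yJ t1 t2 t3 : ℝ} (P : Par r h p c yF yJ t1 t2 t3) (hr : 0 < r)
    (hh : 0 < h) (hκ : 2 * t1 + 4 * t2 + 2 * yJ + 2 * t3 < 2 * (2 * c + 2 * r)) :
    ∃ a0 : ℝ, 0 < a0 ∧ ∀ a, a0 ≤ a → ∃ K, Covers (stadium a (h + r)) r K ∧
      ∀ S, IsShoe a h S → Covers (stadium a (h + r)) r S → μH[1] K < μH[1] S := by
  obtain ⟨C1, hC1⟩ := competitor P hr
  set κ : ℝ := 2 * t1 + 4 * t2 + 2 * yJ + 2 * t3 with hκd
  have hκ0 : 0 ≤ κ := by rw [hκd]; linarith [P.n1, P.n2, P.n3, P.J0]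
  set Q : ℝ := 2 * c + 2 * r with hQ
  have hQ0 : 0 < Q := by rw [hQ]; linarith [P.p0, P.pc]
  have hQκ : 0 < 2 * Q - κ := by linarith
  set B : ℝ := |C1| + 2 * Q + 64 * r + 1 with hB
  have hB0 : 0 < B := by rw [hB]; positivity
  refine ⟨B * Q / (2 * (2 * Q - κ)), by positivity, fun a ha => ?_⟩
  have ha0 : 0 < a := lt_of_lt_of_le (by positivity) ha
  have hfl := Nat.floor_le (show 0 ≤ 2 * a / Q by positivity)
  have hfl2 := Nat.lt_floor_add_one (2 * a / Q)
  have hN1 : 2 * a < ((⌊2 * a / Q⌋₊ + 1 : ℕ) : ℝ) * Q := by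
    push_cast
    rwa [div_lt_iff₀ hQ0] at hfl2
  have hN2 : ((⌊2 * a / Q⌋₊ + 1 : ℕ) : ℝ) * Q ≤ 2 * a + Q := by
    push_cast
    rw [le_div_iff₀ hQ0] at hfl
    linarith
  set N : ℕ := ⌊2 * a / Q⌋₊ + 1 with hN
  obtain ⟨K, hK, hKl⟩ := hC1 a ha0 N hN1 hN2
  refine ⟨K, hK, fun S hS hc => ?_⟩
  have hlow := shoe_lower (a := a) (r := r) (R := h + r) hr.le (by linarith) (S := S)
    (by rwa [add_sub_cancel_right]) hc
  refine hKl.trans_lt (lt_of_lt_of_le ?_ hlow)
  have h1 : B * Q ≤ a * (2 * (2 * Q - κ)) := by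
    rwa [div_le_iff₀ (by positivity)] at ha
  have h2 : B * Q < (N * (2 * Q - κ)) * Q := by
    calc B * Q ≤ (2 * a) * (2 * Q - κ) := by linarith
      _ < (N * Q) * (2 * Q - κ) := mul_lt_mul_of_pos_right hN1 hQκ
      _ = (N * (2 * Q - κ)) * Q := by ring
  have h3 : B < N * (2 * Q - κ) := lt_of_mul_lt_mul_right h2 hQ0.le
  have h4 : C1 ≤ |C1| := le_abs_self _
  have h5 : N * κ + C1 < 2 * (2 * a - 32 * r) := by
    have : N * (2 * Q - κ) = 2 * (N * Q) - N * κ := by ring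
    linarith
  have h6 : 0 < 2 * (2 * a - 32 * r) := by
    have h7 : N * (2 * Q - κ) = 2 * (N * Q) - N * κ := by ring
    have h8 : 0 ≤ N * κ := by positivity
    have h9 : 0 ≤ |C1| := abs_nonneg _
    linarith
  exact (ENNReal.ofReal_lt_ofReal_iff h6).2 h5

/-- **Long stadia of radius less than `(1 + √6 - √2) r`.** -/
theorem main {r R : ℝ} (hr : 0 < r) (hrR : r < R) (hR : R < (1 + √6 - √2) * r) :
    ∃ a0 : ℝ, 0 < a0 ∧ ∀ a, a0 ≤ a → ∃ K, Covers (stadium a R) r K ∧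
      ∀ S, IsShoe a (R - r) S → Covers (stadium a R) r S → μH[1] K < μH[1] S := by
  obtain ⟨h, rfl⟩ : ∃ h, R = h + r := ⟨R - r, by ring⟩
  have hh : 0 < h := by linarith
  rw [add_sub_cancel_right]
  have e6 : √6 = √2 * √3 := by
    rw [← Real.sqrt_mul (by norm_num)]
    norm_num
  have q2 : √2 ^ 2 = 2 := Real.sq_sqrt (by norm_num)
  have q3 : √3 ^ 2 = 3 := Real.sq_sqrt (by norm_num)
  have p2 : 0 < √2 := Real.sqrt_pos.2 (by norm_num)
  have p3 : 0 < √3 := Real.sqrt_pos.2 (by norm_num)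
  rw [e6] at hR
  rcases lt_or_ge h r with h1 | h1
  · -- simple comb
    set c : ℝ := r ^ 2 / (r - h) with hc
    have hrh : 0 < r - h := by linarith
    have hc0 : 0 < c := by positivity
    have hcc : c * (r - h) = r ^ 2 := by rw [hc]; field_simp
    have P : Par r h 0 c h h (c + r) 0 (c + (r - h) / 2) :=
      ⟨hr.le, hh.le, le_rfl, hc0.le, le_rfl, by linarith, hh.le, by nlinarith, by positivity,
        by nlinarith, le_rfl, by nlinarith, by positivity, by nlinarith [sq_nonneg (r - h)]⟩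
    exact long P hr hh (by linarith)
  · set u : ℝ := √2 with hu
    set w : ℝ := √3 with hw
    have w1 : 1 < w := by nlinarith
    have w2 : w < 2 := by nlinarith
    have u1 : 1 < u := by nlinarith
    have u2 : u < 3 / 2 := by nlinarith
    set s : ℝ := u * (w - 1) / 4 with hs
    set k : ℝ := u * (w + 1) / 4 with hk
    have hsk : s ^ 2 + k ^ 2 = 1 := by
      rw [hs, hk]
      have : (u * (w - 1) / 4) ^ 2 + (u * (w + 1) / 4) ^ 2 = u ^ 2 * (w ^ 2 + 1) / 8 := by ring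
      rw [this, q2, q3]
      norm_num
    have hs0 : 0 < s := by rw [hs]; exact div_pos (mul_pos p2 (by linarith)) (by norm_num)
    have hk0 : 0 < k := by rw [hk]; positivity
    have hk1 : k < 1 := by nlinarith
    have hs1 : s < 1 := by nlinarith
    have hthr : k + (2 - w) * s = u * w - u := by
      rw [hs, hk]
      have : u * (w + 1) / 4 + (2 - w) * (u * (w - 1) / 4) = u * (4 * w - 1 - w ^ 2) / 4 := by ring
      rw [this, q3]
      ring
    set δ : ℝ := ((u * w - u) * r - h) / 4 with hδ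
    have hδ0 : 0 < δ := by
      rw [hδ]
      have : h < (u * w - u) * r := by nlinarith
      linarith
    set p : ℝ := r * s with hp
    have hp0 : 0 < p := mul_pos hr hs0
    have hpr : p < r := by nlinarith
    set c : ℝ := p + r ^ 2 / (2 * δ) with hc
    have hcp : (c - p) * (2 * δ) = r ^ 2 := by
      rw [hc, add_sub_cancel_left]
      field_simp
    have hcp0 : 0 < c - p := by rw [hc, add_sub_cancel_left]; positivity
    set yF : ℝ := h + r - r * k with hyF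
    set yJ : ℝ := yF - p * w / 3 with hyJ
    have hrk : 0 < r * k := mul_pos hr hk0
    have hrk1 : r * k < r := by nlinarith
    have P : Par r h p c yF yJ (c + r - p + δ) (2 * p * w / 3) (c - p + δ) := by
      refine ⟨hr.le, hh.le, hp0.le, by linarith, by linarith, by linarith, ?_, ?_, by linarith,
        ?_, by positivity, ?_, by linarith, ?_⟩
      · have : p * w / 3 ≤ r := by nlinarith
        rw [hyJ, hyF]
        nlinarith
      · have : p ^ 2 + (h + r - yF) ^ 2 = r ^ 2 * (s ^ 2 + k ^ 2) := by rw [hp, hyF]; ring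
        rw [this, hsk, mul_one]
      · have h2 : (yF - h) ^ 2 ≤ r ^ 2 := by
          refine pow_le_pow_left₀ ?_ ?_ 2 <;> rw [hyF] <;> linarith
        nlinarith
      · have : p ^ 2 + (yF - yJ) ^ 2 = p ^ 2 + p ^ 2 * w ^ 2 / 9 := by rw [hyJ]; ring
        rw [this, q3]
        have : (2 * p * w / 3) ^ 2 = 4 * p ^ 2 * w ^ 2 / 9 := by ring
        rw [this, q3]
        nlinarith
      · have h2 : (h + r - yF) ^ 2 ≤ r ^ 2 := by
          refine pow_le_pow_left₀ ?_ ?_ 2 <;> rw [hyF] <;> linarith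
        nlinarith
    refine long P hr hh ?_
    have h3 : 2 * (c + r - p + δ) + 4 * (2 * p * w / 3) + 2 * yJ + 2 * (c - p + δ) =
        4 * c + 4 * r + 2 * h + 4 * δ - 2 * r * (k + (2 - w) * s) := by
      rw [hyJ, hyF, hp]
      ring
    rw [h3, hthr]
    have h4 : 4 * δ = (u * w - u) * r - h := by rw [hδ]; ring
    nlinarith

end Pool.Agent.N225.ST
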