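import Pool.Agent.N225.ST.D

set_option autoImplicit false

open Metric Set MeasureTheory Filter
open scoped ENNReal NNReal Topology Pointwise

namespace Pool.Agent.N225.ST

open Pool.Agent.N225.MD

lemma infDist_right {a : ℝ} (ha : 0 ≤ a) {z : E 2} (h : a < z 0) :
    infDist z (seg a) = dist z (pt a 0) := by
  refine le_antisymm (infDist_le_dist_of_mem (right_mem_segment ℝ _ _)) ?_
  exact end_cap ha rfl h

lemma infDist_left {a : ℝ} (ha : 0 ≤ a) {z : E 2} (h : z 0 < -a) :
    infDist z (seg a) = dist z (pt (-a) 0) := by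
  refine le_antisymm (infDist_le_dist_of_mem (left_mem_segment ℝ _ _)) ?_
  exact end_cap' ha rfl h

lemma mem_cth {a R : ℝ} (hR : 0 ≤ R) (z : E 2) :
    z ∈ cthickening R (seg a) ↔ infDist z (seg a) ≤ R := by
  rw [cthickening, mem_ofPred_eq, infDist, ENNReal.le_ofReal_iff_toReal_le
    (infEDist_ne_top (seg_ne a)) hR]

/-- the `R`-stadium is the boundary of the closed `R`-neighbourhood of the segment -/
lemma stadium_eq {a R : ℝ} (ha : 0 ≤ a) (hR : 0 < R) :
    stadium a R = frontier (cthickening R (seg a)) := by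
  have key : ∀ (v z : E 2) (t : ℝ), 0 ≤ t → dist (v + (1 + t) • (z - v)) v = (1 + t) * dist z v := by
    intro v z t ht
    rw [dist_eq_norm, add_sub_cancel_left, norm_smul, Real.norm_eq_abs, abs_of_nonneg (by linarith),
      dist_eq_norm]
  have hlim : ∀ (f : ℝ → E 2) (z : E 2), Continuous f → f 0 = z →
      (∀ t > 0, R < infDist (f t) (seg a)) → infDist z (seg a) = R →
      z ∈ frontier (cthickening R (seg a)) := by
    intro f z hf hf0 hft hz
    have h1 : z ∈ cthickening R (seg a) := by
      rw [mem_cth hR.le, hz]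
    refine ⟨subset_closure h1, fun h2 => ?_⟩
    have h3 : ∀ᶠ t in 𝓝 (0 : ℝ), f t ∈ interior (cthickening R (seg a)) :=
      hf.continuousAt.eventually_mem (by rw [hf0]; exact isOpen_interior.mem_nhds h2)
    have h4 : ∃ᶠ t in 𝓝 (0 : ℝ), 0 < t := by
      have : (𝓝[>] (0 : ℝ)).NeBot := inferInstance
      exact (frequently_mem_iff_neBot.2 this)
    obtain ⟨t, ht, ht2⟩ := (h4.and_eventually h3).exists
    have h5 := interior_subset ht2
    rw [mem_cth hR.le] at h5
    exact absurd h5 (not_le.2 (hft t ht))
  apply Subset.antisymm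
  · intro z hz
    have hz : infDist z (seg a) = R := hz
    rcases lt_or_ge a (z 0) with h1 | h1
    · rw [infDist_right ha h1] at hz
      refine hlim (fun t => pt a 0 + (1 + t) • (z - pt a 0)) z (by fun_prop) (by simp) ?_
        (by rw [infDist_right ha h1, hz])
      intro t ht
      have h2 : a < (pt a 0 + (1 + t) • (z - pt a 0)) 0 := by
        show a < a + (1 + t) * (z 0 - a)
        have : 0 < (1 + t) * (z 0 - a) := mul_pos (by linarith) (by linarith)
        linarith
      rw [infDist_right ha h2, key _ _ _ ht.le, hz]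
      nlinarith
    rcases lt_or_ge (z 0) (-a) with h2 | h2
    · rw [infDist_left ha h2] at hz
      refine hlim (fun t => pt (-a) 0 + (1 + t) • (z - pt (-a) 0)) z (by fun_prop) (by simp) ?_
        (by rw [infDist_left ha h2, hz])
      intro t ht
      have h3 : (pt (-a) 0 + (1 + t) • (z - pt (-a) 0)) 0 < -a := by
        show -a + (1 + t) * (z 0 - -a) < -a
        have : 0 < (1 + t) * (-a - z 0) := mul_pos (by linarith) (by linarith)
        nlinarith
      rw [infDist_left ha h3, key _ _ _ ht.le, hz]
      nlinarith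
    · have hz' := hz
      rw [infDist_seg z h2 h1] at hz
      refine hlim (fun t => pt (z 0) 0 + (1 + t) • (z - pt (z 0) 0)) z (by fun_prop) (by simp) ?_ hz'
      intro t ht
      have h3 : (pt (z 0) 0 + (1 + t) • (z - pt (z 0) 0)) 0 = z 0 := by
        show z 0 + (1 + t) * (z 0 - z 0) = z 0
        ring
      have h4 : (pt (z 0) 0 + (1 + t) • (z - pt (z 0) 0)) 1 = (1 + t) * z 1 := by
        show 0 + (1 + t) * (z 1 - 0) = (1 + t) * z 1
        ring
      rw [infDist_seg _ (by rw [h3]; exact h2) (by rw [h3]; exact h1), h4, abs_mul,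
        abs_of_pos (show 0 < 1 + t by linarith), hz]
      nlinarith
  · intro z hz
    have h1 := frontier_cthickening_subset (seg a) hz
    have h1 : infEDist z (seg a) = ENNReal.ofReal R := h1
    show infDist z (seg a) = R
    rw [infDist, h1, ENNReal.toReal_ofReal hR.le]

end Pool.Agent.N225.ST
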